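import Pool.Agent.H12.ZD.LiftD

/-!
# Zariski dense orbits of rational triangular maps
-/

set_option autoImplicit false

namespace Pool.Agent.Results.MP_0cda1a_ag.RationalTriangular

open MvPolynomial

/-- Let `f = (P i / q i)` be a dominant rational self-map of affine `N`-space over `Q̄` which is
triangular: the numerator `P i` involves only the variables `X j` with `i ≤ j`, the denominator
`q i` only those with `i < j`. If every rational function `a / b` with `(a / b) ∘ f = a / b` is
constant, then some point has a well-defined and Zariski dense orbit. -/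
theorem result (N : ℕ) (P q : Fin N → MvPolynomial (Fin N) (AlgebraicClosure ℚ))
    (hP : ∀ i, ∀ j ∈ (P i).vars, i ≤ j)
    (hq : ∀ i, ∀ j ∈ (q i).vars, i < j)
    (hq0 : ∀ i, q i ≠ 0)
    (hdom : Function.Injective
      (fun a : MvPolynomial (Fin N) (AlgebraicClosure ℚ) =>
        aeval (fun i =>
          (algebraMap (MvPolynomial (Fin N) (AlgebraicClosure ℚ))
            (FractionRing (MvPolynomial (Fin N) (AlgebraicClosure ℚ))) (P i) /
          algebraMap (MvPolynomial (Fin N) (AlgebraicClosure ℚ))
            (FractionRing (MvPolynomial (Fin N) (AlgebraicClosure ℚ))) (q i))) a))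
    (hinv : ∀ a b : MvPolynomial (Fin N) (AlgebraicClosure ℚ), b ≠ 0 →
      aeval (fun i =>
          (algebraMap (MvPolynomial (Fin N) (AlgebraicClosure ℚ))
            (FractionRing (MvPolynomial (Fin N) (AlgebraicClosure ℚ))) (P i) /
          algebraMap (MvPolynomial (Fin N) (AlgebraicClosure ℚ))
            (FractionRing (MvPolynomial (Fin N) (AlgebraicClosure ℚ))) (q i))) a *
        algebraMap (MvPolynomial (Fin N) (AlgebraicClosure ℚ))
            (FractionRing (MvPolynomial (Fin N) (AlgebraicClosure ℚ))) b =
      aeval (fun i =>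
          (algebraMap (MvPolynomial (Fin N) (AlgebraicClosure ℚ))
            (FractionRing (MvPolynomial (Fin N) (AlgebraicClosure ℚ))) (P i) /
          algebraMap (MvPolynomial (Fin N) (AlgebraicClosure ℚ))
            (FractionRing (MvPolynomial (Fin N) (AlgebraicClosure ℚ))) (q i))) b *
        algebraMap (MvPolynomial (Fin N) (AlgebraicClosure ℚ))
            (FractionRing (MvPolynomial (Fin N) (AlgebraicClosure ℚ))) a →
      ∃ c : AlgebraicClosure ℚ, a = C c * b) :
    ∃ x : Fin N → AlgebraicClosure ℚ,
      (∀ (n : ℕ) (i : Fin N),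
        eval ((fun (y : Fin N → AlgebraicClosure ℚ) (j : Fin N) =>
          eval y (P j) / eval y (q j))^[n] x) (q i) ≠ 0) ∧
      ∀ h : MvPolynomial (Fin N) (AlgebraicClosure ℚ),
        (∀ n : ℕ, eval ((fun (y : Fin N → AlgebraicClosure ℚ) (j : Fin N) =>
          eval y (P j) / eval y (q j))^[n] x) h = 0) → h = 0 := by
  obtain ⟨x, -, h1, -, h2⟩ := Pool.Agent.H12.ZD.exists_dense_rational N P q ⟨hP, hq, hq0⟩ hdom
    hinv 1 one_ne_zero ∅ (fun _ _ => 0) one_pos
  exact ⟨x, h1, h2⟩

end Pool.Agent.Results.MP_0cda1a_ag.RationalTriangular
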