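import Pool.Agent.H12.ZD.DegPos

/-!
# Zariski dense orbits of triangular polynomial maps
-/

set_option autoImplicit false

namespace Pool.Agent.Results.MP_ccfdad_ag.TriangularMaps

/-- Let `f` be a dominant polynomial self-map of affine `N`-space over `Q̄` which is triangular:
the `i`-th coordinate `f i` involves only the variables `X j` with `i ≤ j`. If there is no
non-constant rational function `p / q` with `(p / q) ∘ f = p / q`, some point has a Zariski dense
orbit. -/
theorem result (N : ℕ) (f : Fin N → MvPolynomial (Fin N) (AlgebraicClosure ℚ))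
    (htri : ∀ i, ∀ j ∈ (f i).vars, i ≤ j)
    (hdom : Function.Injective
      (fun p : MvPolynomial (Fin N) (AlgebraicClosure ℚ) => MvPolynomial.aeval f p))
    (hinv : ¬ ∃ p q : MvPolynomial (Fin N) (AlgebraicClosure ℚ),
      q ≠ 0 ∧
      (∀ c : AlgebraicClosure ℚ, p ≠ MvPolynomial.C c * q) ∧
      MvPolynomial.aeval f p * q = MvPolynomial.aeval f q * p) :
    ∃ P : Fin N → AlgebraicClosure ℚ,
      ∀ h : MvPolynomial (Fin N) (AlgebraicClosure ℚ),
        (∀ n : ℕ,
          MvPolynomial.eval
            ((fun x : Fin N → AlgebraicClosure ℚ =>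
                fun i : Fin N => MvPolynomial.eval x (f i))^[n] P) h = 0) →
        h = 0 := by
  obtain ⟨x, -, hx⟩ := Pool.Agent.H12.ZD.exists_dense_near N f htri
    (Pool.Agent.H12.ZD.degree_pos N f htri hdom) hdom hinv ∅ (fun _ _ => 0)
  exact ⟨x, hx⟩

end Pool.Agent.Results.MP_ccfdad_ag.TriangularMaps
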